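import Mathlib
import Pool.Agent.R913.Ind.Emb

/-!
# Absolutely Hodge classes on the product of an abelian variety and a variety with independent
periods

Let `A` be an abelian variety and `Y` a smooth projective variety over an algebraically closed field
`k` of characteristic zero. For an embedding `ρ` of `k` in `ℂ` let `Z ρ` be the period matrix of
`ρA` (we suppose that `A` is principally polarized, which is no restriction up to isogeny),
`D = DZ (Z ρ)` the Hodge operator of `ρA`, a complex matrix which acts on the complex homology with
the eigenvalues `1` and `-1` on the parts of the Hodge decomposition, and `(Y ρ).z` the Hodge operator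
of `ρY` (multiplication by `p - q` on `H^(p, q)`) in a rational basis of the cohomology.

Let `P(ρA)` and `P(ρY)` be the spans over `ℚ` of the entries of the two Hodge operators. A *common
part* of `ρA` and `ρY` is a complex matrix `X` with entries in the intersection of `P(ρA)` and
`P(ρY)`, of the form `c D + z` with `c` and `z` in `ℂ ⊗ centre of End(A)`, which commutes with all
conjugates of `D - X`; if the trace of `c D` is zero for all `c` in the centre of `End(A) ⊗ ℚ` (if the
Hodge group of `ρA` is semisimple) we require moreover that `X = e D` for an idempotent `e`.

*Theorem.* Let `ρ` be an embedding such that `0` is the only common part of `ρA` and `ρY`. Then, for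
all `n`, all `ℓ`-adic classes on `A ^ n × Y` which become Hodge under `ρ` are absolutely Hodge if and
only if all `ℓ`-adic classes on `Y` which become Hodge under `ρ` are absolutely Hodge. In particular,
if `0` is the only common part for all embeddings `ρ`, then Q1 for `A ^ n × Y` is equivalent to Q1
for `Y`.

The formal statement is about the comparison maps between the rational cohomology of `ρA ^ n`, `ρY` and
`ρA ^ n × ρY` for all embeddings `ρ` and vector spaces `MA k`, `MY` and `MP` (the `ℓ`-adic cohomology
of `A ^ n` in degree `k`, of `Y`, and of `A ^ n × Y`), which are compatible with exterior products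
with Hodge classes on `A ^ n` and with direct images on `Y` of products with Hodge classes on `A ^ n`,
see `Comparison`; the theorem of Deligne for the abelian variety `A ^ n` is one of its fields.

There is no condition on the Hodge group of `A`, on its dimension, or on its endomorphisms, the Hodge
classes on `A ^ n` may be exceptional, and `Y` is arbitrary. Examples (not part of the formal
statement): `P(ρA) ∩ P(ρY) = 0`; or `End(A) = ℤ` and one entry of the Hodge operator of `ρA` is not a
rational linear combination of the entries of the Hodge operator of `ρY`.

*Proof.* By the theorem of MP_4e1cf2_ag.IndependentFactor a Hodge class on `ρA ^ n × ρY` is a sum of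
products of Hodge classes, so the `ℓ`-adic classes which become Hodge under `ρ` are sums of products
of such classes on `A ^ n` and on `Y`. These become Hodge under all other embeddings, by the theorem
of Deligne and by assumption. The converse follows by integration over the fibres of the projection of
`A ^ n × Y` to `Y`.
-/

namespace Pool.Agent.Results.MP_c77f96_ag.IndependentFactor

open Pool.Agent.H204R3.CM Pool.Agent.W437.HC Pool.Agent.TH131.GHC Pool.Agent.TH504.VY
  Pool.Agent.R913.Ind

/-- **Independent factors**: if `ρA` and `ρY` have no common part then, for all `n`, all classes on
`A ^ n × Y` which become Hodge under the embedding `ρ` are absolutely Hodge if and only if all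
classes on `Y` which become Hodge under `ρ` are absolutely Hodge. -/
theorem result {E : Type} {g v : ℕ} (Z : E → Matrix (Fin g) (Fin g) ℂ) (Y : E → Coh v) (ρ : E)
    (hZ : (Z ρ).transpose = Z ρ) (hpos : ((Z ρ).map Complex.im).PosDef)
    (h : ∀ X, IsCommonPart (DZ (Z ρ)) (entrySpan (Y ρ).z) X → X = 0) (n : ℕ)
    {MA : ℕ → Type} [∀ k, AddCommGroup (MA k)] [∀ k, Module ℚ (MA k)]
    {MY : Type} [AddCommGroup MY] [Module ℚ MY] {MP : Type} [AddCommGroup MP] [Module ℚ MP]
    (C : Comparison (fun ρ => powPer (Z ρ) n) v MA MY MP) :
    AbsFromP (fun ρ => powPer (Z ρ) n) Y C.cP ρ ↔ AbsFromY Y C.cY ρ :=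
  emb_main hZ hpos Y (indep (polOf hZ hpos) (W := entrySpan (Y ρ).z)
    (fun i j => Submodule.subset_span ⟨i, j, rfl⟩) h) C

end Pool.Agent.Results.MP_c77f96_ag.IndependentFactor
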