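import Mathlib
import Pool.Agent.R913.Vhc.Main

/-!
# The variational Hodge conjecture for products of abelian schemes with a square zero operator of
# general rank with any family

Let `B` be the universal covering of the base, `A → B` a fibre product (repetitions allowed) of
families `A i` of principally polarized abelian varieties and `Y → B` any family of smooth
projective varieties. The homology of the fibres of `A` and the cohomology of the fibres of `Y` are
trivialized; the Hodge structure of `Y_b` is given by its Hodge operator (multiplication by `p - q` on
`H ^ (p, q)`). Flat classes on `A ×_B Y` are the elements of `⨁ k, H^k(A) ⊗ H(Y) = HAZ W v`.

Suppose that through each point of `B` there is a connected complex manifold along which the Hodge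
structure of `Y` is constant and each `A i` is a family of period matrices `Z`, not constant, of
dimension `g`, which satisfies one of the following conditions.

1. Some member is simple, more than half of the endomorphisms of the family are symmetric for the
   Rosati involution (types I and II in the classification of Albert) and some rational rank `r` is
   different from `0`, `g / 2` and `g`, and `(g, r)` is not exceptional, or there is another rational
   rank. A rational rank is the rank of `γ - 1` for a monodromy operator `γ` with `(γ - 1) ^ 2 = 0`,
   that is the dimension of the toric part of the fibre of the Néron model at a semistable
   degeneration, or the rank of any rational square zero element of the Lie algebra generated by the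
   Hodge operators. The pair is exceptional if `2 g = e * C(4j+2, 2j+1)` and `r = e * C(4j, 2j)` for
   some `e` and some `j ≥ 1`, for instance `(10, 6)`, `(126, 70)`.
2. All endomorphisms are rational numbers, some rank `r` of the family is different from `0`, `g / 2`
   and `g`, and `(g, r)` is not exceptional with `e = 1` or there is another rank, and `2 g` does not
   divide the product of two of the ranks. Here a rank of the family is the rank of the
   Kodaira-Spencer map at one point in one direction, of the difference of two period matrices, of the
   image of a period matrix under a derivation of the complex numbers, or of any square zero element
   of the Lie algebra generated by the Hodge operators.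
3. Some member is simple and some rank of the family is odd, or the centre of the endomorphism algebra
   is totally real and a rank is two or there are more than `(g - 1) ^ 2 / 8` moduli.

Then (1) each flat class on `A ×_B Y` which is a Hodge class on all fibres is a sum of products
`f ⊗ x`, where `f` is flat and on each `A_b` a combination of products of divisor classes, and `x`
is flat and a Hodge class on all `Y_b`. (2) The variational Hodge conjecture for `Y → B` implies
the variational Hodge conjecture for `A ×_B Y → B`: a flat class which is a Hodge class on all
fibres (by the theorem of the fixed part this is so for a global section which is algebraic on one
fibre) and is algebraic on one fibre is algebraic on all fibres. For a fixed variety `Y` the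
assumption is void, and this is the variational Hodge conjecture for `A × Y`.

For instance (condition 1), let one of the semistable degenerations of an abelian scheme with a simple
fibre and without complex multiplications or quaternion multiplications of type III have a toric part
whose dimension is any number other than `g / 2` and `g` (and not exceptional); before this was known
for odd dimension and, for real centre, dimension two. The exceptions are necessary for the method:
the spin representations of `SO(2, n)` and the exterior powers of `SU(1, 4 j + 1)` give families with
the ranks `g / 2`, `g` and the exceptional ones whose monodromy group is not symplectic.

Of algebraic cycles only two properties are used, which are the fields of `CycleSystem`: the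
product of a product of divisor classes on `A_b` and an algebraic class on `Y_b` is algebraic, and
`pr_*(F ∧ β)` is algebraic on `Y_b` for `F` algebraic on `A_b × Y_b` and a product `β` of divisor
classes on `A_b`, `pr : A_b × Y_b → Y_b`.
-/

namespace Pool.Agent.Results.MP_e9c0f3_ag.GeneralRankTimesVariety

open Pool.Agent.H204R3.CM Pool.Agent.H194R3.CM Pool.Agent.W437.HD Pool.Agent.W437.HP
  Pool.Agent.TH131.GHC Pool.Agent.TH504.VY Pool.Agent.R913.Vhc

/-- The variational Hodge conjecture for `A ×_B Y`, where `A` is a fibre product
`A (c 0) × ... × A (c (n - 1))` of families of abelian varieties which are good along manifolds on which
the Hodge structure of `Y` is constant. -/
theorem result {ι B : Type} [Nonempty B] {g : ι → ℕ}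
    (Z : ∀ i, B → Matrix (Fin (g i)) (Fin (g i)) ℂ) {n : ℕ} (c : Fin n → ι) {v : ℕ}
    (Y : B → Coh v) (hmov : VariesRelative Z Y) :
    HodgeClassesAreProducts (fibreProduct Z c) Y ∧ VariationalFromY (fibreProduct Z c) Y :=
  main Z c Y hmov

end Pool.Agent.Results.MP_e9c0f3_ag.GeneralRankTimesVariety
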